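import Mathlib

set_option autoImplicit false

namespace Pool.Agent.Results.MP_8301b4_gt.NotCcc

open Set Filter Topology Ordinal

/-- The iterated Cantor–Bendixson derivatives. -/
noncomputable def cb (X : Type) [TopologicalSpace X] (o : Ordinal.{0}) : Set X :=
  Ordinal.limitRecOn o Set.univ (fun _ S => {x ∈ S | AccPt x (𝓟 S)})
    (fun o _ f => ⋂ (β : Ordinal.{0}) (h : β < o), f β h)

/-- Homeomorphic to a subspace of `C_p(K)` for a compact Hausdorff `K`. -/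
def EG (X : Type) [TopologicalSpace X] : Prop :=
  ∃ (K : Type) (_ : TopologicalSpace K), CompactSpace K ∧ T2Space K ∧
    ∃ φ : X → K → ℝ, IsEmbedding φ ∧ ∀ x, Continuous (φ x)

/-- `𝒱` is a point-countable open cover refining `𝒰`. -/
def Refines {Y : Type} [TopologicalSpace Y] (𝒱 𝒰 : Set (Set Y)) : Prop :=
  (∀ V ∈ 𝒱, IsOpen V ∧ ∃ U ∈ 𝒰, V ⊆ U) ∧ ⋃₀ 𝒱 = Set.univ ∧ ∀ y, {V ∈ 𝒱 | y ∈ V}.Countable

/-- Every open cover of every subspace has a point-countable open refinement. -/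
def HML (X : Type) [TopologicalSpace X] : Prop :=
  ∀ (Y : Set X) (𝒰 : Set (Set Y)), (∀ U ∈ 𝒰, IsOpen U) → ⋃₀ 𝒰 = Set.univ → ∃ 𝒱, Refines 𝒱 𝒰

/-- The choices allowed by the problem. -/
def Admissible {X : Type} [TopologicalSpace X] (U : X → Set X) (𝒱 : Set (Set X)) : Prop :=
  (∀ x, IsOpen (U x) ∧ ∀ α, x ∈ cb X α \ cb X (α + 1) → U x ∩ (cb X α \ cb X (α + 1)) = {x}) ∧
    Refines 𝒱 (range U)

/-- The conditions of the poset. -/
def Cond {X : Type} (𝒱 : Set (Set X)) (p : Set X) : Prop :=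
  p.Finite ∧ ∀ x ∈ p, ⋃₀ {V ∈ 𝒱 | x ∈ V} ∩ p = {x}

abbrev W : Type := (ω₁ : Ordinal.{0}).ToType

def X : Type := {t : W × List (W × W × ℕ) // ∀ a ∈ t.2, t.1 < a.1}

def N (s : X) (m : ℕ) : Set X := {t | t = s ∨ ∃ δ n, m ≤ n ∧ (s.1.1, δ, n) :: s.1.2 <:+ t.1.2}

theorem N_self (s : X) (m : ℕ) : s ∈ N s m := .inl rfl

theorem N_anti (s : X) {m k : ℕ} (h : m ≤ k) : N s k ⊆ N s m :=
  fun _ ht => ht.imp id fun ⟨δ, n, a, b⟩ => ⟨δ, n, h.trans a, b⟩

instance : TopologicalSpace X where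
  IsOpen U := ∀ s ∈ U, ∃ m, N s m ⊆ U
  isOpen_univ := fun _ _ => ⟨0, subset_univ _⟩
  isOpen_inter := by
    intro U V hU hV x hx
    obtain ⟨m, a⟩ := hU x hx.1
    obtain ⟨k, b⟩ := hV x hx.2
    exact ⟨max m k, subset_inter ((N_anti x (le_max_left _ _)).trans a)
      ((N_anti x (le_max_right _ _)).trans b)⟩
  isOpen_sUnion := by
    rintro s hs x ⟨U, hU, hx⟩
    obtain ⟨m, a⟩ := hs U hU x hx
    exact ⟨m, a.trans (subset_sUnion_of_mem hU)⟩

theorem open_iff (U : Set X) : IsOpen U ↔ ∀ s ∈ U, ∃ m, N s m ⊆ U := Iff.rfl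

theorem N_open (s : X) (m : ℕ) : IsOpen (N s m) := by
  refine (open_iff _).2 fun t ht => ?_
  rcases ht with rfl | ⟨δ, n, a, b⟩
  · exact ⟨m, Subset.rfl⟩
  · refine ⟨0, fun u hu => .inr ⟨δ, n, a, ?_⟩⟩
    rcases hu with rfl | ⟨δ', n', -, c⟩
    · exact b
    · exact b.trans ((List.suffix_cons _ _).trans c)

theorem N_closed (s : X) (m : ℕ) : IsClosed (N s m) := by
  refine isOpen_compl_iff.1 ((open_iff _).2 fun t ht => ⟨(s.1.2.map fun a => a.2.2).sum + 1, ?_⟩)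
  have h1 : ∀ δ n, (s.1.2.map fun a => a.2.2).sum + 1 ≤ n → (t.1.1, δ, n) ∉ s.1.2 :=
    fun δ n h h' => absurd (List.le_sum_of_mem (List.mem_map_of_mem (f := fun a => a.2.2) h'))
      (not_le.2 h)
  have h2 : ∀ δ n δ' n', (s.1.1, δ', n') :: s.1.2 ≠ (t.1.1, δ, n) :: t.1.2 := fun δ n δ' n' h => by
    simp only [List.cons.injEq, Prod.mk.injEq] at h
    exact ht (.inl (Subtype.ext (Prod.ext h.1.1 h.2)).symm)
  rintro u (rfl | ⟨δ, n, a, b⟩) hu
  · exact ht hu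
  rcases hu with rfl | ⟨δ', n', a', b'⟩
  · exact h1 δ n a (b.subset List.mem_cons_self)
  rcases List.suffix_or_suffix_of_suffix b b' with c | c
  · rcases List.suffix_cons_iff.1 c with c | c
    · exact h2 _ _ _ _ c.symm
    · exact h1 δ n a (c.subset List.mem_cons_self)
  · rcases List.suffix_cons_iff.1 c with c | c
    · exact h2 _ _ _ _ c
    · exact ht (.inr ⟨δ', n', a', c⟩)

theorem N_fin (t : X) : {s | t ∈ N s 0}.Finite := by
  refine (finite_singleton t).union (Finite.of_finite_image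
    (f := fun s : X => (s.1.1, s.1.2)) (s := {s | ∃ δ n, (s.1.1, δ, n) :: s.1.2 <:+ t.1.2})
    (((t.1.2.finite_toSet.image Prod.fst).prod t.1.2.tails.finite_toSet).subset ?_)
    fun a _ b _ h => Subtype.ext h) |>.subset fun s hs => hs.imp Eq.symm fun ⟨δ, n, _, b⟩ =>
      ⟨δ, n, b⟩
  rintro _ ⟨s, ⟨δ, n, h⟩, rfl⟩
  exact ⟨⟨_, h.subset List.mem_cons_self, rfl⟩,
    (List.mem_tails _ _).2 ((List.suffix_cons _ _).trans h)⟩

theorem N_lt {s t : X} {m : ℕ} (h : t ∈ N s m) (hne : t ≠ s) : t.1.1 < s.1.1 := by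
  obtain ⟨δ, n, -, b⟩ := h.resolve_left hne
  exact t.2 _ (b.subset List.mem_cons_self)

def child (s : X) (γ : W) (h : γ < s.1.1) (δ : W) (n : ℕ) : X :=
  ⟨(γ, (s.1.1, δ, n) :: s.1.2), fun a ha => by
    rcases List.mem_cons.1 ha with rfl | ha
    · exact h
    · exact h.trans (s.2 a ha)⟩

theorem child_mem (s : X) (γ : W) (h : γ < s.1.1) (δ : W) (n : ℕ) : child s γ h δ n ∈ N s n :=
  .inr ⟨δ, n, le_rfl, List.suffix_refl _⟩

noncomputable def rk (s : X) : Ordinal.{0} := (ToType.mk.symm s.1.1).1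

theorem rk_lt {s t : X} : rk s < rk t ↔ s.1.1 < t.1.1 := ToType.mk.symm.lt_iff_lt

theorem cb_eq (o : Ordinal.{0}) : cb X o = {s | o ≤ rk s} := by
  induction o using Ordinal.limitRecOn with
  | zero => simp [cb]
  | add_one o ih =>
    have : cb X (o + 1) = {x ∈ cb X o | AccPt x (𝓟 (cb X o))} := limitRecOn_add_one ..
    rw [this, ih]
    ext s
    simp only [mem_ofPred_eq, Order.add_one_le_iff, accPt_iff_nhds]
    refine ⟨fun ⟨_, h⟩ => ?_, fun h => ⟨h.le, fun U hU => ?_⟩⟩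
    · obtain ⟨t, ⟨t1, t2⟩, t3⟩ := h _ ((N_open s 0).mem_nhds (N_self s 0))
      exact lt_of_le_of_lt t2 (rk_lt.2 (N_lt t1 t3))
    · obtain ⟨V, v1, v2, v3⟩ := mem_nhds_iff.1 hU
      obtain ⟨m, hm⟩ := (open_iff _).1 v2 s v3
      let γ : W := ToType.mk ⟨o, h.trans (ToType.mk.symm s.1.1).2⟩
      have h1 : γ < s.1.1 := ToType.mk.lt_symm_apply.1 h
      refine ⟨child s γ h1 γ m, ⟨v1 (hm (child_mem ..)), ?_⟩, fun e => h1.ne (by rw [← e]; rfl)⟩
      simp [rk, child, γ]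
  | limit o ho ih =>
    have : cb X o = ⋂ (β : Ordinal.{0}) (_ : β < o), cb X β := limitRecOn_limit _ _ _ _ ho
    rw [this]
    ext s
    simp only [mem_iInter, mem_ofPred_eq]
    refine ⟨fun h => not_lt.1 fun h' => ?_, fun h β hβ => ih β hβ ▸ hβ.le.trans h⟩
    have := h _ (ho.add_one_lt h')
    rw [ih _ (ho.add_one_lt h')] at this
    exact absurd this (by simp)

def G : Type := X × ℕ

instance : TopologicalSpace G := ⊥

instance : DiscreteTopology G := ⟨rfl⟩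

theorem eg : EG X := by
  classical
  let φ : X → OnePoint G → ℝ := fun x k =>
    OnePoint.rec 0 (fun p : G => if x ∈ N p.1 p.2 then 1 / ((p.2 : ℝ) + 1) else 0) k
  have h1 : ∀ (s : X) m x, φ x (OnePoint.some ((s, m) : X × ℕ)) ≠ 0 ↔ x ∈ N s m := fun s m x => by
    have : (1 : ℝ) / ((m : ℝ) + 1) ≠ 0 := Nat.one_div_pos_of_nat.ne'
    change ite _ _ _ ≠ _ ↔ _
    split_ifs with h <;> simp [h, Nat.cast_add_one_ne_zero]
  have h2 : Continuous φ := continuous_pi fun k => by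
    induction k using OnePoint.rec with
    | infty => exact continuous_const
    | coe p =>
      exact continuous_if (by simp [IsClopen.frontier_eq ⟨N_closed p.1 p.2, N_open p.1 p.2⟩])
        continuousOn_const continuousOn_const
  have h3 : IsInducing φ := by
    refine isInducing_iff_nhds.2 fun x => le_antisymm h2.continuousAt.le_comap fun U hU => ?_
    obtain ⟨V, v1, v2, v3⟩ := mem_nhds_iff.1 hU
    obtain ⟨m, hm⟩ := (open_iff _).1 v2 x v3
    exact ⟨{f | f (OnePoint.some ((x, m) : X × ℕ)) ≠ 0}, (isOpen_ne_fun (continuous_apply _)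
      continuous_const).mem_nhds ((h1 x m x).2 (N_self ..)), fun y hy => v1 (hm ((h1 ..).1 hy))⟩
  refine ⟨OnePoint G, inferInstance, inferInstance, inferInstance, φ, ⟨h3, fun x y h => ?_⟩,
    fun x => (OnePoint.continuous_iff_from_discrete _).2 ?_⟩
  · by_contra hne
    have a : x ∈ N y 0 := (h1 ..).1 (h ▸ (h1 y 0 y).2 (N_self ..))
    have b : y ∈ N x 0 := (h1 ..).1 (h ▸ (h1 x 0 x).2 (N_self ..))
    exact lt_asymm (N_lt a hne) (N_lt b (Ne.symm hne))
  · refine Metric.tendsto_nhds.2 fun ε hε => ?_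
    obtain ⟨M, hM⟩ := exists_nat_one_div_lt hε
    refine ((N_fin x).prod (finite_Iio M)).subset fun p hp => ?_
    by_contra h
    refine hp ?_
    change dist (ite _ _ _) (0 : ℝ) < ε
    split_ifs with h'
    · have : M ≤ p.2 := not_lt.1 fun k => h ⟨N_anti _ (Nat.zero_le _) h', k⟩
      rw [Real.dist_0_eq_abs, abs_of_pos Nat.one_div_pos_of_nat]
      exact (Nat.one_div_le_one_div this).trans_lt hM
    · simpa using hε

theorem hml : HML X := by
  intro Y 𝒰 h1 h2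
  have : ∀ y : Y, ∃ m, ∃ U ∈ 𝒰, Subtype.val ⁻¹' N y.1 m ⊆ U := fun y => by
    obtain ⟨U, u1, u2⟩ : y ∈ ⋃₀ 𝒰 := h2 ▸ mem_univ y
    obtain ⟨V, v1, rfl⟩ := isOpen_induced_iff.1 (h1 U u1)
    obtain ⟨m, hm⟩ := (open_iff _).1 v1 y u2
    exact ⟨m, _, u1, preimage_mono hm⟩
  choose m hm using this
  refine ⟨range fun y => Subtype.val ⁻¹' N y.1 (m y), ?_, eq_univ_of_forall fun y =>
    ⟨_, ⟨y, rfl⟩, N_self ..⟩, fun y => (((N_fin y.1).preimage Subtype.val_injective.injOn).image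
      fun z : Y => Subtype.val ⁻¹' N z.1 (m z)).countable.mono ?_⟩
  · rintro _ ⟨y, rfl⟩
    exact ⟨(N_open _ _).preimage continuous_subtype_val, hm y⟩
  · rintro _ ⟨⟨z, rfl⟩, h⟩
    exact ⟨z, N_anti _ (Nat.zero_le _) h, rfl⟩

theorem mk_W : Cardinal.mk W = Cardinal.aleph 1 := by simp

/-- A space as in the problem for which admissible choices exist and the poset fails the countable
chain condition for every admissible choice. -/
theorem result : ∃ (X : Type) (_ : TopologicalSpace X), T35Space X ∧ EG X ∧ HML X ∧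
    IsLeast {α | cb X α = ∅} ω₁ ∧ Cardinal.mk X = Cardinal.aleph 1 ∧
    (∃ (U : X → Set X) (𝒱 : Set (Set X)), Admissible U 𝒱) ∧
    ∀ (U : X → Set X) (𝒱 : Set (Set X)), Admissible U 𝒱 →
      ∃ A : Set (Set X), ¬ A.Countable ∧ (∀ p ∈ A, Cond 𝒱 p) ∧
        A.Pairwise fun p q => ¬ ∃ r, Cond 𝒱 r ∧ p ⊆ r ∧ q ⊆ r := by
  refine ⟨X, inferInstance, ?_, eg, hml, ⟨?_, fun α h => not_lt.1 fun hα => ?_⟩, ?_,
    ⟨fun x => N x 0, range fun x => N x 0, fun x => ⟨N_open _ _, fun α hx => ?_⟩, ?_, ?_, ?_⟩, ?_⟩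
  · obtain ⟨K, -, -, -, φ, h, -⟩ := eg
    exact h.t35Space
  · rw [mem_ofPred_eq, cb_eq]
    exact eq_empty_of_forall_notMem fun s h => not_lt.2 (show ω₁ ≤ rk s from h)
      (ToType.mk.symm s.1.1).2
  · rw [mem_ofPred_eq, cb_eq] at h
    refine (h ▸ show (⟨(ToType.mk ⟨α, hα⟩, []), by simp⟩ : X) ∈ {s | α ≤ rk s} from ?_ :
      _ ∈ (∅ : Set X))
    change α ≤ (ToType.mk.symm (ToType.mk ⟨α, hα⟩)).1
    simp
  · refine le_antisymm ((Cardinal.mk_subtype_le _).trans ?_) (mk_W ▸ Cardinal.mk_le_of_injective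
      (f := fun β : W => (⟨(β, []), by simp⟩ : X)) fun a b h => congrArg (fun t : X => t.1.1) h)
    have : Infinite W := Cardinal.infinite_iff.2 (by simp)
    simp
  · simp only [cb_eq, Set.mem_sdiff, mem_ofPred_eq, Order.add_one_le_iff, not_lt] at hx ⊢
    refine Subset.antisymm (fun y ⟨y1, y2, _⟩ => ?_) (singleton_subset_iff.2
      ⟨N_self .., hx.1, by simpa using hx.2⟩)
    by_contra hne
    exact absurd (rk_lt.2 (N_lt y1 hne)) (not_lt.2 (hx.2.trans y2))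
  · rintro _ ⟨x, rfl⟩
    exact ⟨N_open _ _, _, ⟨x, rfl⟩, Subset.rfl⟩
  · exact eq_univ_of_forall fun y => ⟨_, ⟨y, rfl⟩, N_self ..⟩
  · intro y
    refine ((N_fin y).image fun z => N z 0).countable.mono ?_
    rintro _ ⟨⟨z, rfl⟩, h⟩
    exact ⟨z, h, rfl⟩
  · rintro U 𝒱 ⟨-, h1, h2, -⟩
    let a : W := ToType.mk ⟨0, omega_pos 1⟩
    let b : W := ToType.mk ⟨1, one_lt_omega0.trans omega0_lt_omega_one⟩
    have hab : a < b := ToType.mk.lt_iff_lt.2 (Subtype.mk_lt_mk.2 zero_lt_one)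
    let s : X := ⟨(b, []), by simp⟩
    obtain ⟨V, v1, v2⟩ : s ∈ ⋃₀ 𝒱 := h2 ▸ mem_univ s
    obtain ⟨m, hm⟩ := (open_iff _).1 (h1 V v1).1 s v2
    let c : W → Set X := fun δ => {child s a hab δ m}
    have hc : Function.Injective c := fun δ δ' h => by
      have := congrArg (fun t : X => t.1.2) (singleton_injective h)
      simpa [child] using this
    refine ⟨range c, fun h => ?_, ?_, ?_⟩
    · have := Cardinal.le_aleph0_iff_set_countable.2 h
      rw [Cardinal.mk_range_eq _ hc, mk_W] at this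
      exact absurd this (not_le.2 Cardinal.aleph0_lt_aleph_one)
    · rintro _ ⟨δ, rfl⟩
      refine ⟨finite_singleton _, fun x hx => ?_⟩
      obtain rfl : x = _ := hx
      exact inter_eq_right.2 (singleton_subset_iff.2 ⟨V, ⟨v1, hm (child_mem ..)⟩,
        hm (child_mem ..)⟩)
    · rintro _ ⟨δ, rfl⟩ _ ⟨δ', rfl⟩ hne ⟨r, r1, r2, r3⟩
      have : child s a hab δ' m = child s a hab δ m := (r1.2 _ (r2 rfl)).le
        ⟨⟨V, ⟨v1, hm (child_mem ..)⟩, hm (child_mem ..)⟩, r3 rfl⟩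
      exact hne (congrArg singleton this.symm)

end Pool.Agent.Results.MP_8301b4_gt.NotCcc
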